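import Pool.Agent.Lib.MP_348529_lc.XLow

/-!
Reweighted sub-hypergraph sparsifiers of directed hypergraphs of rank three need `Ω(n² / ε²)`
hyperedges.
-/

namespace Pool.Agent.Results.MP_348529_lc.DirectedLower

open Pool.Agent.Lib.MP_348529_lc.X

theorem result : ∃ c : ℝ, 0 < c ∧ ∀ (n : ℕ) (ε : ℝ), 0 < ε → ε ≤ 1 / 32 → 1 ≤ ε ^ 2 * n →
    ∃ (ι : Type) (_ : Fintype ι) (e : ι → Finset (Fin n)) (g : ι → Finset (Fin n) → ℝ),
      (∀ i, g i ∅ = 0) ∧ (∀ i, ∀ S ⊆ e i, 0 ≤ g i S) ∧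
      (∀ i, ∀ S ⊆ e i, ∀ T ⊆ e i, g i (S ∪ T) + g i (S ∩ T) ≤ g i S + g i T) ∧
      (∀ i, ∃ t a b : Fin n, e i = {t, a, b} ∧
        ∀ S, g i S = if t ∈ S ∧ (a ∉ S ∨ b ∉ S) then 1 else 0) ∧
      ∀ (E' : Finset ι) (s : ι → ℝ), (∀ i ∈ E', 0 < s i) →
        (∀ S : Finset (Fin n), (1 - ε) * ∑ i, g i (S ∩ e i) ≤ ∑ i ∈ E', s i * g i (S ∩ e i) ∧
          ∑ i ∈ E', s i * g i (S ∩ e i) ≤ (1 + ε) * ∑ i, g i (S ∩ e i)) →
        c * (n : ℝ) ^ 2 / ε ^ 2 ≤ (E'.card : ℝ) := by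
  refine ⟨1 / 65536, by norm_num, fun n ε hε hε1 hn => ?_⟩
  have hε2 : 0 < ε ^ 2 := by positivity
  obtain ⟨d, hd⟩ : ∃ d, d = ⌊1 / (1024 * ε ^ 2)⌋₊ := ⟨_, rfl⟩
  have d0 : 1 ≤ 1 / (1024 * ε ^ 2) := by rw [le_div_iff₀ (by positivity)]; nlinarith
  have d1 : 1 ≤ d := hd ▸ Nat.le_floor (by simpa using d0)
  have d2 : 1024 * ε ^ 2 * d ≤ 1 := by
    rw [← le_div_iff₀' (by positivity), hd]; exact Nat.floor_le (by positivity)
  have d3 : 1 ≤ 2048 * ε ^ 2 * d := by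
    have h1 := Nat.lt_floor_add_one (1 / (1024 * ε ^ 2))
    rw [← hd, div_lt_iff₀ (by positivity)] at h1
    have h2 : (1 : ℝ) ≤ d := by exact_mod_cast d1
    nlinarith
  have d4 : 4 * d ≤ n := by
    have : (4 * d : ℝ) ≤ n := by nlinarith [(Nat.cast_nonneg n : (0 : ℝ) ≤ n)]
    exact_mod_cast this
  obtain ⟨q, hq⟩ : ∃ q, q = n / (4 * d) := ⟨_, rfl⟩
  have q1 : q * (4 * d) ≤ n := hq ▸ Nat.div_mul_le_self _ _
  have q2 : n < 4 * d * (q + 1) := hq ▸ Nat.lt_mul_div_succ _ (by omega)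
  have q3 : 1 ≤ q := hq ▸ (Nat.le_div_iff_mul_le (by omega)).2 (by omega)
  obtain ⟨p, hp⟩ : ∃ p, n = p + q * (d + d) := ⟨n - q * (d + d), by
    rw [Nat.sub_add_cancel (by nlinarith)]⟩
  obtain ⟨σ⟩ : Nonempty (Fin p ⊕ Fin q × (Fin d ⊕ Fin d) ≃ Fin n) :=
    ⟨Fintype.equivFinOfCardEq (by simp [hp])⟩
  refine ⟨(Fin p × Fin q) × Fin d × Fin d, inferInstance,
    fun i => {σ (.inl i.1.1), σ (.inr (i.1.2, .inl i.2.1)), σ (.inr (i.1.2, .inr i.2.2))},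
    fun i S => if σ (.inl i.1.1) ∈ S ∧ (σ (.inr (i.1.2, .inl i.2.1)) ∉ S ∨
      σ (.inr (i.1.2, .inr i.2.2)) ∉ S) then 1 else 0, by simp, fun i S _ => by positivity,
    fun i S _ T _ => ?_, fun i => ⟨_, _, _, rfl, fun S => rfl⟩, fun E s _ h => ?_⟩
  · beta_reduce
    generalize σ (.inl i.1.1) = t, σ (.inr (i.1.2, .inl i.2.1)) = a, σ (.inr (i.1.2, .inr i.2.2)) = b
    by_cases c1 : t ∈ S <;> by_cases c2 : t ∈ T <;> by_cases c3 : a ∈ S <;> by_cases c4 : a ∈ T <;>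
      by_cases c5 : b ∈ S <;> by_cases c6 : b ∈ T <;> simp [c1, c2, c3, c4, c5, c6]
  · have h1 := lower hε.le d2 E s fun S => by
      simpa [gL] using h (S.map σ.toEmbedding)
    refine le_trans ?_ h1
    have a1 : (n : ℝ) ≤ 2 * p := by exact_mod_cast (by nlinarith : n ≤ 2 * p)
    have a2 : (n : ℝ) ≤ 8 * d * q := by exact_mod_cast (by nlinarith : n ≤ 8 * d * q)
    have a3 := mul_le_mul a1 a2 (by positivity) (by positivity)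
    have a4 := mul_le_mul a3 d3 zero_le_one (by positivity)
    rw [div_le_iff₀ hε2]
    nlinarith

end Pool.Agent.Results.MP_348529_lc.DirectedLower
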