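import Pool.Agent.Lib.MP_348529_lc.XClass

/-!
The bound `O(n² / ε²)` for submodular hypergraphs whose splitting functions are represented by
gadgets up to a bounded factor.
-/

namespace Pool.Agent.Results.MP_348529_lc.NetworkQuadratic

open Pool.Agent.Lib.MP_348529_lc.X

theorem result : ∃ C : ℝ, ∀ (V ι : Type) [Fintype V] [DecidableEq V] [Fintype ι]
    (e : ι → Finset V) (g : ι → Finset V → ℝ) (K : ℝ), 0 < K →
    (∀ i, g i ∅ = 0) → (∀ i, ∀ S ⊆ e i, 0 ≤ g i S) →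
    (∀ i, ∀ S ⊆ e i, ∀ T ⊆ e i, g i (S ∪ T) + g i (S ∩ T) ≤ g i S + g i T) →
    (∀ i, ∃ (k : ℕ) (m₀ : Finset (V ⊕ Fin k) → ℝ) (m m' : V ⊕ Fin k → Finset (V ⊕ Fin k) → ℝ),
      MonoSub m₀ ∧ (∀ b, MonoSub (m b)) ∧ (∀ a, MonoSub (m' a)) ∧
      ∀ S ⊆ e i, (∃ T : Finset (Fin k), cost m₀ m m' (S.disjSum T) ≤ g i S) ∧
        ∀ T : Finset (Fin k), g i S ≤ K * cost m₀ m m' (S.disjSum T)) →
    ∀ ε : ℝ, 0 < ε → ε < 1 →
      ∃ (E' : Finset ι) (s : ι → ℝ), (∀ i ∈ E', 0 < s i) ∧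
        (E'.card : ℝ) ≤ C * K ^ 2 * (Fintype.card V : ℝ) ^ 2 / ε ^ 2 ∧
        ∀ S : Finset V, (1 - ε) * ∑ i, g i (S ∩ e i) ≤ ∑ i ∈ E', s i * g i (S ∩ e i) ∧
          ∑ i ∈ E', s i * g i (S ∩ e i) ≤ (1 + ε) * ∑ i, g i (S ∩ e i) := by
  refine ⟨2 ^ 64, fun V ι _ _ _ e g K hK h0 h1 h2 h3 ε hε hε1 => ?_⟩
  classical
  obtain ⟨E', s, hs, hc, h⟩ := main (g := fun i S => g i (S ∩ e i)) (fun i => by
      obtain ⟨k, m₀, m, m', a1, a2, a3, a4⟩ := h3 i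
      exact cov_gadget (h0 i) (h1 i) (h2 i) hK.le a1 a2 a3 (fun S hS => (a4 S hS).1)
        fun S hS => (a4 S hS).2)
    (by positivity) (by simp [prs]) hε hε1
  refine ⟨E', s, hs, hc.trans (div_le_div_of_nonneg_right ?_ (by positivity)), h⟩
  have e1 : Fintype.card (V × Option V) ≤ 2 * Fintype.card V ^ 2 := by
    rw [Fintype.card_prod, Fintype.card_option]
    nlinarith [Nat.le_mul_self (Fintype.card V)]
  have e2 : (Fintype.card (V × Option V) : ℝ) ≤ 2 * Fintype.card V ^ 2 := by exact_mod_cast e1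
  nlinarith [mul_le_mul_of_nonneg_left e2 (sq_nonneg K)]

end Pool.Agent.Results.MP_348529_lc.NetworkQuadratic
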