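import Pool.Agent.Lib.MP_348529_lc.YXor

/-!
Hypergraphs whose splitting functions are Lipschitz for the symmetric difference (for instance
symmetric submodular or monotone submodular) have sparsifiers with `O(n / ε²)` hyperedges.
-/

namespace Pool.Agent.Results.MP_348529_lc.XorLinear

open Pool.Agent.Lib.MP_348529_lc.X

theorem result : ∃ C : ℝ, ∀ (V ι : Type) [Fintype V] [DecidableEq V] [Fintype ι]
    (e : ι → Finset V) (g : ι → Finset V → ℝ) (K : ℝ), 0 < K →
    (∀ i, g i ∅ = 0) → (∀ i, ∀ S ⊆ e i, 0 ≤ g i S) →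
    (∀ i, ∀ S ⊆ e i, ∀ T ⊆ e i, g i ((S \ T) ∪ (T \ S)) ≤ g i S + K * g i T) →
    ∀ ε : ℝ, 0 < ε → ε < 1 →
      ∃ (E' : Finset ι) (s : ι → ℝ), (∀ i ∈ E', 0 < s i) ∧
        (E'.card : ℝ) ≤ C * K ^ 2 * (Fintype.card V : ℝ) / ε ^ 2 ∧
        ∀ S : Finset V, (1 - ε) * ∑ i, g i (S ∩ e i) ≤ ∑ i ∈ E', s i * g i (S ∩ e i) ∧
          ∑ i ∈ E', s i * g i (S ∩ e i) ≤ (1 + ε) * ∑ i, g i (S ∩ e i) := by
  refine ⟨2 ^ 66, fun V ι _ _ _ e g K hK h0 h1 h2 ε hε hε1 => ?_⟩
  classical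
  rcases isEmpty_or_nonempty V with hV | hV
  · exact ⟨∅, fun _ => 1, by simp, by simp, fun S => by simp [Subsingleton.elim S ∅, h0]⟩
  refine main2 (g := fun i S => g i (S ∩ e i)) (fun i => lip_xor (by simp [h0 i])
    (fun S => h1 i _ Finset.inter_subset_right) fun S T => ?_) hK hε hε1
    (by exact_mod_cast Fintype.card_pos) ?_
  · convert h2 i (S ∩ e i) Finset.inter_subset_right (T ∩ e i) Finset.inter_subset_right using 2
    ext x
    simp only [Finset.mem_inter, Finset.mem_symmDiff, Finset.mem_union, Finset.mem_sdiff]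
    tauto
  · rw [Fintype.card_fun, ZMod.card, Nat.cast_pow, Real.log_pow]
    exact mul_le_of_le_one_right (by positivity)
      ((Real.log_le_sub_one_of_pos (by norm_num)).trans (by norm_num))

end Pool.Agent.Results.MP_348529_lc.XorLinear
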